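import Mathlib

/-!
# Interacting self-avoiding walks: a failure of the existence of the free energy would be robust

For every `β₀ > 0` the limit of `F n β₀ = (1/n) log Z n β₀` exists if and only if `β₀` is a limit of
numbers `β > 0` such that `F (n k) β` converges for one sequence with `n (k+1) / n k → 1`. If the
limit does not exist, then there are `a < b` and `c > 0` such that `F n β ≤ a` on infinitely many
whole windows `N ≤ n ≤ (1 + c) N`, `|β - β₀| ≤ c`, and `F n β ≥ b` on infinitely many windows of this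
kind.

The proof uses `Z (n+1) β ≤ C Z n β` (removing the last vertex changes the number of the contacts by a
bounded number), and that `F n` is Lipschitz in `β` uniformly in `n`.
-/

set_option autoImplicit false

open Filter Topology

namespace Pool.Agent.Results.MP_86995c_pr.RobustFailure

variable {d : ℕ}

/-- `u` and `v` are nearest neighbours in `ℤ^d`. -/
def Adj (u v : Fin d → ℤ) : Prop := ∑ k, |u k - v k| = 1

/-- `w` is a self-avoiding walk with `n` edges from the origin. -/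
def IsSAW {n : ℕ} (w : Fin (n + 1) → Fin d → ℤ) : Prop :=
  w 0 = 0 ∧ Function.Injective w ∧ ∀ i : Fin n, Adj (w i.succ) (w i.castSucc)

open Classical in
/-- The set of the self-avoiding walks with `n` edges from the origin (they stay in the box). -/
noncomputable def walks (d n : ℕ) : Finset (Fin (n + 1) → Fin d → ℤ) :=
  (Fintype.piFinset fun _ => Fintype.piFinset fun _ => Finset.Icc (-(n : ℤ)) n).filter IsSAW

open Classical in
/-- The number of contacts: pairs of vertices that are nearest neighbours and not consecutive. -/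
noncomputable def contacts {n : ℕ} (w : Fin (n + 1) → Fin d → ℤ) : ℕ :=
  ((Finset.univ : Finset (Fin (n + 1) × Fin (n + 1))).filter fun p =>
    p.1.val + 1 < p.2.val ∧ Adj (w p.1) (w p.2)).card

/-- The partition function. -/
noncomputable def Z (d n : ℕ) (β : ℝ) : ℝ := ∑ w ∈ walks d n, Real.exp (β * contacts w)

/-- `F n β = (1/n) log Z n β`. -/
noncomputable def F (d n : ℕ) (β : ℝ) : ℝ := Real.log (Z d n β) / n

theorem adj_le {u v : Fin d → ℤ} (h : Adj u v) (k : Fin d) : |u k - v k| ≤ 1 := by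
  rw [← h]
  exact Finset.single_le_sum (f := fun k => |u k - v k|) (fun i _ => abs_nonneg _)
    (Finset.mem_univ k)

theorem saw_box {n : ℕ} {w : Fin (n + 1) → Fin d → ℤ} (h : IsSAW w) (i : Fin (n + 1)) (k : Fin d) :
    |w i k| ≤ i.val := by
  induction i using Fin.induction with
  | zero => rw [h.1]; simp
  | succ i ih =>
    have h1 := adj_le (h.2.2 i) k
    have h2 : |w i.succ k| ≤ |w i.succ k - w i.castSucc k| + |w i.castSucc k| := by
      have := abs_add_le (w i.succ k - w i.castSucc k) (w i.castSucc k)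
      rwa [sub_add_cancel] at this
    rw [Fin.val_castSucc] at ih
    rw [Fin.val_succ]
    push_cast
    linarith

theorem mem_walks {n : ℕ} {w : Fin (n + 1) → Fin d → ℤ} : w ∈ walks d n ↔ IsSAW w := by
  classical
  unfold walks
  rw [Finset.mem_filter]
  refine ⟨fun h => h.2, fun h => ⟨?_, h⟩⟩
  rw [Fintype.mem_piFinset]
  intro i
  rw [Fintype.mem_piFinset]
  intro k
  rw [Finset.mem_Icc, ← abs_le]
  refine (saw_box h i k).trans ?_
  have := i.isLt
  omega

theorem saw_init {n : ℕ} {w : Fin (n + 2) → Fin d → ℤ} (h : IsSAW w) :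
    IsSAW (fun i : Fin (n + 1) => w i.castSucc) := by
  refine ⟨?_, h.2.1.comp (Fin.castSucc_injective _), fun i => ?_⟩
  · show w (Fin.castSucc 0) = 0
    rw [Fin.castSucc_zero]
    exact h.1
  · have := h.2.2 i.castSucc
    rwa [Fin.succ_castSucc] at this

/-- the points with all coordinates at distance at most one -/
noncomputable def nb (u : Fin d → ℤ) : Finset (Fin d → ℤ) :=
  Fintype.piFinset fun k => Finset.Icc (u k - 1) (u k + 1)

theorem card_nb (u : Fin d → ℤ) : (nb u).card = 3 ^ d := by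
  unfold nb
  rw [Fintype.card_piFinset]
  have : ∀ k, (Finset.Icc (u k - 1) (u k + 1)).card = 3 := by
    intro k
    rw [Int.card_Icc]
    have : u k + 1 + 1 - (u k - 1) = 3 := by ring
    rw [this]
    rfl
  simp [this]

theorem mem_nb {u v : Fin d → ℤ} (h : Adj u v) : u ∈ nb v := by
  unfold nb
  rw [Fintype.mem_piFinset]
  intro k
  have := abs_le.1 (adj_le h k)
  rw [Finset.mem_Icc]
  omega

theorem contacts_succ {n : ℕ} {w : Fin (n + 2) → Fin d → ℤ} (h : IsSAW w) :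
    contacts w ≤ contacts (fun i : Fin (n + 1) => w i.castSucc) + 3 ^ d := by
  classical
  unfold contacts
  set S := (Finset.univ : Finset (Fin (n + 2) × Fin (n + 2))).filter fun p =>
    p.1.val + 1 < p.2.val ∧ Adj (w p.1) (w p.2) with hS
  set S' := (Finset.univ : Finset (Fin (n + 1) × Fin (n + 1))).filter fun p =>
    p.1.val + 1 < p.2.val ∧ Adj (w p.1.castSucc) (w p.2.castSucc) with hS'
  rw [← Finset.card_filter_add_card_filter_not (s := S) (fun p => p.2 = Fin.last (n + 1)),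
    add_comm]
  refine Nat.add_le_add ?_ ?_
  · have hsub : (S.filter fun p => ¬p.2 = Fin.last (n + 1)) ⊆
        S'.image fun p => (p.1.castSucc, p.2.castSucc) := by
      intro p hp
      rw [Finset.mem_filter, hS, Finset.mem_filter] at hp
      obtain ⟨⟨-, h1, h2⟩, h3⟩ := hp
      obtain ⟨j, hj⟩ := Fin.exists_castSucc_eq.2 h3
      have h4 : p.1 ≠ Fin.last (n + 1) := by
        intro h5
        rw [h5, Fin.val_last] at h1
        have := p.2.isLt
        omega
      obtain ⟨i, hi⟩ := Fin.exists_castSucc_eq.2 h4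
      rw [Finset.mem_image]
      refine ⟨(i, j), ?_, ?_⟩
      · rw [hS', Finset.mem_filter]
        refine ⟨Finset.mem_univ _, ?_, ?_⟩
        · rw [← hi, ← hj] at h1
          simpa using h1
        · rw [← hi, ← hj] at h2
          exact h2
      · rw [hi, hj]
    exact (Finset.card_le_card hsub).trans Finset.card_image_le
  · rw [← card_nb (w (Fin.last (n + 1)))]
    refine Finset.card_le_card_of_injOn (fun p => w p.1) ?_ ?_
    · intro p hp
      rw [Finset.mem_coe, Finset.mem_filter, hS, Finset.mem_filter] at hp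
      obtain ⟨⟨-, -, h2⟩, h3⟩ := hp
      rw [h3] at h2
      exact mem_nb h2
    · intro p hp q hq hpq
      rw [Finset.mem_coe, Finset.mem_filter] at hp hq
      exact Prod.ext (h.2.1 hpq) (hp.2.trans hq.2.symm)

theorem contacts_le {n : ℕ} {w : Fin (n + 1) → Fin d → ℤ} (h : IsSAW w) :
    contacts w ≤ 3 ^ d * n := by
  classical
  induction n with
  | zero =>
    unfold contacts
    rw [Nat.mul_zero, Nat.le_zero, Finset.card_eq_zero]
    ext p
    rw [Finset.mem_filter]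
    have := p.2.isLt
    constructor
    · rintro ⟨-, h1, -⟩
      omega
    · intro h1
      exact absurd h1 (Finset.notMem_empty _)
  | succ n ih =>
    have h1 := contacts_succ h
    have h2 := ih (saw_init h)
    rw [Nat.mul_succ]
    omega

theorem Z_succ (n : ℕ) {β : ℝ} (hβ : 0 ≤ β) :
    Z d (n + 1) β ≤ 3 ^ d * Real.exp (β * 3 ^ d) * Z d n β := by
  classical
  unfold Z
  have hmap : ∀ w ∈ walks d (n + 1), (fun i : Fin (n + 1) => w i.castSucc) ∈ walks d n :=
    fun w hw => mem_walks.2 (saw_init (mem_walks.1 hw))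
  rw [← Finset.sum_fiberwise_of_maps_to hmap, Finset.mul_sum]
  refine Finset.sum_le_sum fun v hv => ?_
  have hcard : ((walks d (n + 1)).filter fun w => (fun i : Fin (n + 1) => w i.castSucc) = v).card ≤
      3 ^ d := by
    rw [← card_nb (v (Fin.last n))]
    refine Finset.card_le_card_of_injOn (fun w => w (Fin.last (n + 1))) ?_ ?_
    · intro w hw
      rw [Finset.mem_coe, Finset.mem_filter] at hw
      have h1 := (mem_walks.1 hw.1).2.2 (Fin.last n)
      rw [Fin.succ_last] at h1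
      have h2 : w (Fin.last n).castSucc = v (Fin.last n) := congrFun hw.2 (Fin.last n)
      rw [h2] at h1
      exact mem_nb h1
    · intro w hw w' hw' hww
      rw [Finset.mem_coe, Finset.mem_filter] at hw hw'
      funext i
      refine Fin.lastCases ?_ (fun j => ?_) i
      · exact hww
      · exact (congrFun hw.2 j).trans (congrFun hw'.2 j).symm
  have hterm : ∀ w ∈ (walks d (n + 1)).filter fun w => (fun i : Fin (n + 1) => w i.castSucc) = v,
      Real.exp (β * contacts w) ≤ Real.exp (β * 3 ^ d) * Real.exp (β * contacts v) := by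
    intro w hw
    rw [Finset.mem_filter] at hw
    rw [← Real.exp_add, Real.exp_le_exp]
    have h1 := contacts_succ (mem_walks.1 hw.1)
    rw [hw.2] at h1
    have h2 : ((contacts w : ℕ) : ℝ) ≤ contacts v + 3 ^ d := by exact_mod_cast h1
    nlinarith
  calc ∑ w ∈ (walks d (n + 1)).filter fun w => (fun i : Fin (n + 1) => w i.castSucc) = v,
        Real.exp (β * contacts w)
      ≤ ((walks d (n + 1)).filter fun w => (fun i : Fin (n + 1) => w i.castSucc) = v).card •
        (Real.exp (β * 3 ^ d) * Real.exp (β * contacts v)) := Finset.sum_le_card_nsmul _ _ _ hterm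
    _ ≤ 3 ^ d * (Real.exp (β * 3 ^ d) * Real.exp (β * contacts v)) := by
        rw [nsmul_eq_mul]
        refine mul_le_mul_of_nonneg_right ?_ (by positivity)
        exact_mod_cast hcard
    _ = 3 ^ d * Real.exp (β * 3 ^ d) * Real.exp (β * contacts v) := by ring

/-- the straight walk -/
theorem exists_walk (hd : 1 ≤ d) (n : ℕ) : ∃ w, w ∈ walks d n := by
  refine ⟨fun i k => if k = ⟨0, hd⟩ then (i.val : ℤ) else 0, mem_walks.2 ⟨?_, ?_, fun i => ?_⟩⟩
  · funext k
    simp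
  · intro i j hij
    have := congrFun hij ⟨0, hd⟩
    simp only [if_true] at this
    exact Fin.ext (by exact_mod_cast this)
  · unfold Adj
    have : ∀ k : Fin d, |(if k = ⟨0, hd⟩ then ((i.succ : Fin (n + 1)).val : ℤ) else 0) -
        (if k = ⟨0, hd⟩ then ((i.castSucc : Fin (n + 1)).val : ℤ) else 0)| =
        if k = ⟨0, hd⟩ then 1 else 0 := by
      intro k
      split_ifs with h
      · rw [Fin.val_succ, Fin.val_castSucc]
        push_cast
        rw [add_sub_cancel_left, abs_one]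
      · simp
    rw [Finset.sum_congr rfl fun k _ => this k]
    simp

theorem one_le_Z (hd : 1 ≤ d) (n : ℕ) {β : ℝ} (hβ : 0 ≤ β) : 1 ≤ Z d n β := by
  obtain ⟨w, hw⟩ := exists_walk hd n
  calc (1 : ℝ) ≤ Real.exp (β * contacts w) := Real.one_le_exp (by positivity)
    _ ≤ Z d n β := Finset.single_le_sum (f := fun w => Real.exp (β * contacts w))
        (fun _ _ => (Real.exp_pos _).le) hw

theorem Z_mono {n : ℕ} {β β' : ℝ} (h : β ≤ β') : Z d n β ≤ Z d n β' :=
  Finset.sum_le_sum fun w _ => Real.exp_le_exp.2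
    (mul_le_mul_of_nonneg_right h (Nat.cast_nonneg _))

theorem Z_le {n : ℕ} {β β' : ℝ} (h : β ≤ β') :
    Z d n β' ≤ Real.exp ((β' - β) * (3 ^ d * n)) * Z d n β := by
  unfold Z
  rw [Finset.mul_sum]
  refine Finset.sum_le_sum fun w hw => ?_
  rw [← Real.exp_add, Real.exp_le_exp]
  have h1 : ((contacts w : ℕ) : ℝ) ≤ 3 ^ d * n := by exact_mod_cast contacts_le (mem_walks.1 hw)
  nlinarith

theorem Z_pos (hd : 1 ≤ d) (n : ℕ) {β : ℝ} (hβ : 0 ≤ β) : 0 < Z d n β :=
  lt_of_lt_of_le one_pos (one_le_Z hd n hβ)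

/-- the logarithm of the partition function -/
noncomputable def f (d n : ℕ) (β : ℝ) : ℝ := Real.log (Z d n β)

theorem F_eq (n : ℕ) (β : ℝ) : F d n β = f d n β / n := rfl

theorem f_nonneg (hd : 1 ≤ d) (n : ℕ) {β : ℝ} (hβ : 0 ≤ β) : 0 ≤ f d n β :=
  Real.log_nonneg (one_le_Z hd n hβ)

theorem F_nonneg (hd : 1 ≤ d) (n : ℕ) {β : ℝ} (hβ : 0 ≤ β) : 0 ≤ F d n β :=
  div_nonneg (f_nonneg hd n hβ) (Nat.cast_nonneg n)

/-- the growth constant -/
noncomputable def gc (d : ℕ) (B : ℝ) : ℝ := Real.log (3 ^ d) + B * 3 ^ d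

theorem gc_nonneg {B : ℝ} (hB : 0 ≤ B) : 0 ≤ gc d B :=
  add_nonneg (Real.log_nonneg (one_le_pow₀ (by norm_num))) (by positivity)

theorem f_succ (hd : 1 ≤ d) (n : ℕ) {β B : ℝ} (hβ : 0 ≤ β) (hB : β ≤ B) :
    f d (n + 1) β ≤ f d n β + gc d B := by
  unfold f gc
  have h1 := Real.log_le_log (Z_pos hd (n + 1) hβ) (Z_succ (d := d) n hβ)
  rw [Real.log_mul (by positivity) (Z_pos hd n hβ).ne', Real.log_mul (by positivity)
    (Real.exp_pos _).ne', Real.log_exp] at h1
  have h2 : β * 3 ^ d ≤ B * 3 ^ d := mul_le_mul_of_nonneg_right hB (by positivity)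
  linarith

theorem f_step (hd : 1 ≤ d) {n n' : ℕ} (hn : n ≤ n') {β B : ℝ} (hβ : 0 ≤ β) (hB : β ≤ B) :
    f d n' β ≤ f d n β + gc d B * ((n' : ℝ) - n) := by
  obtain ⟨m, rfl⟩ := Nat.exists_eq_add_of_le hn
  induction m with
  | zero => simp
  | succ m ih =>
    have h1 := ih (Nat.le_add_right _ _)
    have h2 := f_succ hd (n + m) hβ hB
    push_cast at h1 ⊢
    have h3 : f d (n + (m + 1)) β = f d (n + m + 1) β := rfl
    rw [h3]
    linarith

theorem f_lip_aux (hd : 1 ≤ d) (n : ℕ) {β β' : ℝ} (hβ : 0 ≤ β) (h : β ≤ β') :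
    f d n β ≤ f d n β' ∧ f d n β' ≤ f d n β + 3 ^ d * n * (β' - β) := by
  unfold f
  refine ⟨Real.log_le_log (Z_pos hd n hβ) (Z_mono h), ?_⟩
  have h1 := Real.log_le_log (Z_pos hd n (hβ.trans h)) (Z_le (d := d) (n := n) h)
  rw [Real.log_mul (Real.exp_pos _).ne' (Z_pos hd n hβ).ne', Real.log_exp] at h1
  linarith

theorem f_lip (hd : 1 ≤ d) (n : ℕ) {β β' : ℝ} (hβ : 0 ≤ β) (hβ' : 0 ≤ β') :
    |f d n β - f d n β'| ≤ 3 ^ d * n * |β - β'| := by
  rcases le_total β β' with h | h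
  · obtain ⟨h1, h2⟩ := f_lip_aux hd n hβ h
    rw [abs_of_nonpos (by linarith), abs_of_nonpos (by linarith)]
    linarith
  · obtain ⟨h1, h2⟩ := f_lip_aux hd n hβ' h
    rw [abs_of_nonneg (by linarith), abs_of_nonneg (by linarith)]
    linarith

theorem F_le (hd : 1 ≤ d) (n : ℕ) {β : ℝ} (hβ : 0 ≤ β) : F d n β ≤ gc d β := by
  have h1 := f_step hd (Nat.zero_le n) hβ le_rfl
  have h0 : f d 0 β = 0 ∨ True := Or.inr trivial
  have h2 : f d 0 β ≤ 0 := by
    unfold f
    refine Real.log_nonpos (zero_le_one.trans (one_le_Z hd 0 hβ)) ?_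
    unfold Z
    have h3 : ∀ w ∈ walks d 0, Real.exp (β * contacts w) ≤ 1 := by
      intro w hw
      have := contacts_le (mem_walks.1 hw)
      rw [Nat.mul_zero, Nat.le_zero] at this
      rw [this]
      simp
    refine (Finset.sum_le_card_nsmul _ _ _ h3).trans ?_
    have h4 : (walks d 0).card ≤ 1 := by
      rw [Finset.card_le_one]
      intro w hw w' hw'
      funext i
      have hi : i = 0 := Fin.ext (by have := i.isLt; omega)
      rw [hi, (mem_walks.1 hw).1, (mem_walks.1 hw').1]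
    rw [nsmul_eq_mul, mul_one]
    exact_mod_cast h4
  rw [F_eq]
  rcases Nat.eq_zero_or_pos n with rfl | hn
  · simpa using gc_nonneg (d := d) hβ
  · rw [div_le_iff₀ (by exact_mod_cast hn)]
    rw [Nat.cast_zero, sub_zero] at h1
    linarith

/-- All values `F n β` with `N ≤ n ≤ (1 + c) N` and `|β - β₀| ≤ c` satisfy `P`. -/
def Window (d : ℕ) (β₀ c : ℝ) (P : ℝ → Prop) (N : ℕ) : Prop :=
  ∀ (n : ℕ) (β : ℝ), N ≤ n → (n : ℝ) ≤ (1 + c) * N → |β - β₀| ≤ c → P (F d n β)

theorem exists_crossing (hd : 1 ≤ d) {β₀ : ℝ} (h0 : 0 < β₀)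
    (hno : ¬∃ L : ℝ, Tendsto (fun n : ℕ => F d n β₀) atTop (𝓝 L)) :
    ∃ a b : ℝ, a < b ∧ (∀ M : ℕ, ∃ N, M ≤ N ∧ F d N β₀ < a) ∧
      ∀ M : ℕ, ∃ N, M ≤ N ∧ b < F d N β₀ := by
  by_contra h
  refine hno (tendsto_of_no_upcrossings (s := Set.univ) dense_univ ?_ ?_ ?_)
  · rintro a - b - hab ⟨h1, h2⟩
    refine h ⟨a, b, hab, fun M => ?_, fun M => ?_⟩
    · obtain ⟨N, hN, hN'⟩ := frequently_atTop.1 h1 M
      exact ⟨N, hN, hN'⟩
    · obtain ⟨N, hN, hN'⟩ := frequently_atTop.1 h2 M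
      exact ⟨N, hN, hN'⟩
  · exact isBoundedUnder_of ⟨gc d β₀, fun n => F_le hd n h0.le⟩
  · exact isBoundedUnder_of ⟨0, fun n => F_nonneg hd n h0.le⟩

theorem low_window (hd : 1 ≤ d) {β₀ a η c : ℝ} (ha : 0 ≤ a)
    (hc : 0 < c) (hc1 : c ≤ 1) (hc2 : c ≤ β₀) (hc3 : (gc d (β₀ + 1) + 3 ^ d) * c ≤ η) {N₀ : ℕ}
    (hN : 1 ≤ N₀) (h : F d N₀ β₀ < a) : Window d β₀ c (fun r => r ≤ a + η) N₀ := by
  intro n β hn hn' hβ
  have hb := abs_le.1 hβ
  have hN0 : (0 : ℝ) < N₀ := by exact_mod_cast hN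
  have h3 : (N₀ : ℝ) ≤ n := by exact_mod_cast hn
  have hnpos : (0 : ℝ) < n := lt_of_lt_of_le hN0 h3
  have hB : 0 ≤ gc d (β₀ + 1) := gc_nonneg (by linarith)
  have h4 := f_step hd hn (β := β₀) (B := β₀ + 1) (by linarith) (by linarith)
  have h5 := f_lip hd n (β := β) (β' := β₀) (by linarith) (by linarith)
  have h6 : f d N₀ β₀ ≤ a * N₀ := by
    rw [F_eq, div_lt_iff₀ hN0] at h
    exact h.le
  have h7 : f d n β - f d n β₀ ≤ 3 ^ d * n * c :=
    (le_abs_self _).trans (h5.trans (mul_le_mul_of_nonneg_left hβ (by positivity)))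
  have h8 : gc d (β₀ + 1) * ((n : ℝ) - N₀) ≤ gc d (β₀ + 1) * (c * n) :=
    mul_le_mul_of_nonneg_left (by nlinarith) hB
  have h9 : a * N₀ ≤ a * n := mul_le_mul_of_nonneg_left h3 ha
  have h10 : (gc d (β₀ + 1) + 3 ^ d) * c * n ≤ η * n := mul_le_mul_of_nonneg_right hc3 hnpos.le
  show F d n β ≤ a + η
  rw [F_eq, div_le_iff₀ hnpos]
  nlinarith

theorem high_window (hd : 1 ≤ d) {β₀ b η c : ℝ} (hb0 : 0 ≤ b)
    (hc : 0 < c) (hc1 : c ≤ 1) (hc2 : c ≤ β₀) (hc3 : (2 * gc d (β₀ + 1) + 3 ^ d) * c ≤ η) {N₁ : ℕ}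
    (hN : 4 / c + 2 ≤ (N₁ : ℝ)) (h : b < F d N₁ β₀) :
    Window d β₀ c (fun r => b - η ≤ r) ⌊(N₁ : ℝ) / (1 + c)⌋₊ := by
  intro n β hn hn' hβ
  have hb := abs_le.1 hβ
  have hc4 : 4 ≤ ((N₁ : ℝ) - 2) * c := by
    have : 4 / c ≤ (N₁ : ℝ) - 2 := by linarith
    rwa [div_le_iff₀ hc] at this
  have hN0 : (0 : ℝ) < N₁ := by
    have : 0 < 4 / c := by positivity
    linarith
  set y : ℝ := (N₁ : ℝ) / (1 + c) with hy
  have hy1 : (N₁ : ℝ) = y * (1 + c) := by
    rw [hy]; field_simp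
  have hypos : 0 < y := by positivity
  have h1 : ((⌊y⌋₊ : ℕ) : ℝ) ≤ y := Nat.floor_le hypos.le
  have h2 : y < (⌊y⌋₊ : ℕ) + 1 := Nat.lt_floor_add_one y
  have h3 : y - 1 ≤ n := by
    have : ((⌊y⌋₊ : ℕ) : ℝ) ≤ n := by exact_mod_cast hn
    linarith
  have h4 : (n : ℝ) ≤ N₁ := by
    rw [hy1, mul_comm]
    exact hn'.trans (mul_le_mul_of_nonneg_left h1 (by positivity))
  have hyN : (N₁ : ℝ) ≤ 2 * y := by rw [hy1]; nlinarith
  have hnc : 2 ≤ c * n := by nlinarith
  have hnpos : (0 : ℝ) < n := by nlinarith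
  have h5 : (N₁ : ℝ) - n ≤ 2 * (c * n) := by
    rw [hy1]
    nlinarith
  have hB : 0 ≤ gc d (β₀ + 1) := gc_nonneg (by linarith)
  have h6 := f_step hd (n := n) (n' := N₁) (by exact_mod_cast h4) (β := β₀) (B := β₀ + 1)
    (by linarith) (by linarith)
  have h7 := f_lip hd n (β := β) (β' := β₀) (by linarith) (by linarith)
  have h8 : b * N₁ ≤ f d N₁ β₀ := by
    rw [F_eq, lt_div_iff₀ hN0] at h
    exact h.le
  have h9 : -(3 ^ d * n * c) ≤ f d n β - f d n β₀ :=
    (neg_le_neg (h7.trans (mul_le_mul_of_nonneg_left hβ (by positivity)))).trans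
      (neg_abs_le _)
  have h10 : gc d (β₀ + 1) * ((N₁ : ℝ) - n) ≤ gc d (β₀ + 1) * (2 * (c * n)) :=
    mul_le_mul_of_nonneg_left h5 hB
  have h11 : b * n ≤ b * N₁ := mul_le_mul_of_nonneg_left h4 hb0
  have h12 : (2 * gc d (β₀ + 1) + 3 ^ d) * c * n ≤ η * n :=
    mul_le_mul_of_nonneg_right hc3 hnpos.le
  show b - η ≤ F d n β
  rw [F_eq, le_div_iff₀ hnpos]
  nlinarith

theorem robust (hd : 1 ≤ d) {β₀ : ℝ} (h0 : 0 < β₀)
    (hno : ¬∃ L : ℝ, Tendsto (fun n : ℕ => F d n β₀) atTop (𝓝 L)) :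
    ∃ a b c : ℝ, a < b ∧ 0 < c ∧ (∀ M : ℕ, ∃ N, M ≤ N ∧ Window d β₀ c (fun r => r ≤ a) N) ∧
      ∀ M : ℕ, ∃ N, M ≤ N ∧ Window d β₀ c (fun r => b ≤ r) N := by
  obtain ⟨a, b, hab, ha, hb⟩ := exists_crossing hd h0 hno
  have ha0 : 0 ≤ a := by
    obtain ⟨N, -, hN⟩ := ha 0
    exact ((F_nonneg hd _ h0.le).trans_lt hN).le
  set η : ℝ := (b - a) / 3 with hη
  have hη0 : 0 < η := by rw [hη]; linarith
  set G : ℝ := 2 * gc d (β₀ + 1) + 3 ^ d with hG
  have hgc : 0 ≤ gc d (β₀ + 1) := gc_nonneg (by linarith)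
  have hG0 : 0 < G := by
    have : (0 : ℝ) < 3 ^ d := by positivity
    rw [hG]; linarith
  set c : ℝ := min 1 (min β₀ (η / G)) with hc
  have hc0 : 0 < c := lt_min one_pos (lt_min h0 (by positivity))
  have hc1 : c ≤ 1 := min_le_left _ _
  have hc2 : c ≤ β₀ := (min_le_right _ _).trans (min_le_left _ _)
  have hc3 : G * c ≤ η := by
    have : c ≤ η / G := (min_le_right _ _).trans (min_le_right _ _)
    rw [le_div_iff₀ hG0] at this
    linarith
  have hc4 : (gc d (β₀ + 1) + 3 ^ d) * c ≤ η := by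
    refine le_trans (mul_le_mul_of_nonneg_right ?_ hc0.le) hc3
    rw [hG]; linarith
  refine ⟨a + η, b - η, c, by rw [hη]; linarith, hc0, fun M => ?_, fun M => ?_⟩
  · obtain ⟨N, hN, hN'⟩ := ha (max M 1)
    exact ⟨N, (le_max_left _ _).trans hN, low_window hd ha0 hc0 hc1 hc2 hc4
      ((le_max_right _ _).trans hN) hN'⟩
  · obtain ⟨N, hN, hN'⟩ := hb ⌈4 / c + 2 + 2 * (M : ℝ)⌉₊
    have h1 : 4 / c + 2 + 2 * (M : ℝ) ≤ N := (Nat.le_ceil _).trans (by exact_mod_cast hN)
    have hM : (0 : ℝ) ≤ M := Nat.cast_nonneg M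
    refine ⟨_, ?_, high_window hd (ha0.trans hab.le) hc0 hc1 hc2 hc3 (by linarith) hN'⟩
    refine Nat.le_floor ?_
    rw [le_div_iff₀ (by positivity)]
    have : 0 < 4 / c := by positivity
    nlinarith

/-- A sequence of lengths with quotients tending to `1` meets all late windows. -/
theorem meets {β₀ β c : ℝ} {P : ℝ → Prop} (hc : 0 < c) (hβ : |β - β₀| ≤ c)
    (hP : ∀ M : ℕ, ∃ N, M ≤ N ∧ Window d β₀ c P N) {n : ℕ → ℕ} (hn : Tendsto n atTop atTop)
    (hq : Tendsto (fun k => (n (k + 1) : ℝ) / n k) atTop (𝓝 1)) :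
    ∃ᶠ k in atTop, P (F d (n k) β) := by
  rw [frequently_atTop]
  intro K
  have e1 : ∀ᶠ k in atTop, (n (k + 1) : ℝ) / n k < 1 + c :=
    hq.eventually (gt_mem_nhds (by linarith))
  have e3 : ∀ᶠ k in atTop, 1 ≤ n k := hn.eventually (eventually_ge_atTop 1)
  obtain ⟨K₀, hK₀⟩ := eventually_atTop.1 (e1.and e3)
  set K₁ := max K K₀ with hK₁
  obtain ⟨N, hN, hW⟩ := hP (n K₁ + 1)
  have hex : ∃ k, K₁ ≤ k ∧ N ≤ n k := by
    obtain ⟨k, hk⟩ := eventually_atTop.1 ((hn.eventually (eventually_ge_atTop N)).and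
      (eventually_ge_atTop K₁))
    exact ⟨k, (hk k le_rfl).2, (hk k le_rfl).1⟩
  classical
  obtain ⟨h1, h2⟩ := Nat.find_spec hex
  set k := Nat.find hex with hk
  have h3 : K₁ ≠ k := by
    intro h
    rw [← h] at h2
    omega
  obtain ⟨j, hj⟩ : ∃ j, k = j + 1 := ⟨k - 1, by omega⟩
  have h4 : K₁ ≤ j := by omega
  have h5 : n j < N := by
    by_contra h
    exact Nat.find_min hex (m := j) (by omega) ⟨h4, by omega⟩
  have h6 := hK₀ j ((le_max_right _ _).trans h4)
  have h8 : (0 : ℝ) < n j := by exact_mod_cast h6.2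
  refine ⟨k, (le_max_left _ _).trans h1, hW (n k) β h2 ?_ hβ⟩
  have h9 := h6.1
  rw [div_lt_iff₀ h8, ← hj] at h9
  refine h9.le.trans (mul_le_mul_of_nonneg_left ?_ (by positivity))
  exact_mod_cast h5.le

/-- Along some sequence of lengths that tends to infinity, with quotients tending to `1`, the
numbers `F n β` converge. -/
def ConvergesAlong (d : ℕ) (β : ℝ) : Prop :=
  ∃ n : ℕ → ℕ, Tendsto n atTop atTop ∧ Tendsto (fun k => (n (k + 1) : ℝ) / n k) atTop (𝓝 1) ∧
    ∃ L : ℝ, Tendsto (fun k => F d (n k) β) atTop (𝓝 L)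

theorem uniform (hd : 1 ≤ d) {β₀ : ℝ} (h0 : 0 < β₀) {L : ℝ}
    (hL : Tendsto (fun n : ℕ => F d n β₀) atTop (𝓝 L)) (ε : ℝ) (hε : 0 < ε) :
    ∃ c : ℝ, 0 < c ∧ ∃ M : ℕ, ∀ (n : ℕ) (β : ℝ), M ≤ n → |β - β₀| ≤ c → |F d n β - L| ≤ ε := by
  have h3 : (0 : ℝ) < 3 ^ d := by positivity
  obtain ⟨M, hM⟩ := eventually_atTop.1 (Metric.tendsto_nhds.1 hL (ε / 2) (by positivity))
  refine ⟨min β₀ (ε / 2 / 3 ^ d), lt_min h0 (by positivity), max M 1, fun n β hn hβ => ?_⟩
  have h1 := hM n ((le_max_left _ _).trans hn)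
  rw [Real.dist_eq] at h1
  have hn1 : (0 : ℝ) < n := by
    have : 1 ≤ n := (le_max_right _ _).trans hn
    exact_mod_cast this
  have h4 : |β - β₀| ≤ β₀ := hβ.trans (min_le_left _ _)
  have h5 : |β - β₀| ≤ ε / 2 / 3 ^ d := hβ.trans (min_le_right _ _)
  have h6 := abs_le.1 h4
  have h7 := f_lip hd n (β := β) (β' := β₀) (by linarith) h0.le
  have h8 : |F d n β - F d n β₀| ≤ ε / 2 := by
    rw [F_eq, F_eq, ← sub_div, abs_div, abs_of_pos hn1, div_le_iff₀ hn1]
    refine h7.trans ?_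
    rw [le_div_iff₀ h3] at h5
    nlinarith
  calc |F d n β - L| = |(F d n β - F d n β₀) + (F d n β₀ - L)| := by ring_nf
    _ ≤ |F d n β - F d n β₀| + |F d n β₀ - L| := abs_add_le _ _
    _ ≤ ε / 2 + ε / 2 := add_le_add h8 h1.le
    _ = ε := by ring

/-- Let `d ≥ 1` and `β₀ > 0`. The following are equivalent.
(a) The limit of `F n β₀` exists.
(b) `F n β` converges as `n → ∞` and `β → β₀`.
(c) `β₀` is in the closure of the set of the numbers `β > 0` for which `F (n k) β` converges along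
some sequence of lengths with quotients tending to `1`.
(d) There are no `a < b` and `c > 0` such that for infinitely many `N` all values `F n β` with
`N ≤ n ≤ (1 + c) N`, `|β - β₀| ≤ c` are at most `a`, and for infinitely many `N` all of them are at
least `b`. -/
theorem result (d : ℕ) (hd : 1 ≤ d) (β₀ : ℝ) (h0 : 0 < β₀) : List.TFAE [
    ∃ L : ℝ, Tendsto (fun n : ℕ => F d n β₀) atTop (𝓝 L),
    ∃ L : ℝ, ∀ ε : ℝ, 0 < ε → ∃ c : ℝ, 0 < c ∧ ∃ M : ℕ, ∀ (n : ℕ) (β : ℝ), M ≤ n →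
      |β - β₀| ≤ c → |F d n β - L| ≤ ε,
    β₀ ∈ closure {β : ℝ | 0 < β ∧ ConvergesAlong d β},
    ¬∃ a b c : ℝ, a < b ∧ 0 < c ∧ (∀ M : ℕ, ∃ N, M ≤ N ∧ Window d β₀ c (fun r => r ≤ a) N) ∧
      ∀ M : ℕ, ∃ N, M ≤ N ∧ Window d β₀ c (fun r => b ≤ r) N] := by
  tfae_have 1 → 2 := fun ⟨L, hL⟩ => ⟨L, uniform hd h0 hL⟩
  tfae_have 2 → 1 := by
    rintro ⟨L, hL⟩
    refine ⟨L, Metric.tendsto_nhds.2 fun ε hε => ?_⟩
    obtain ⟨c, hc, M, hM⟩ := hL (ε / 2) (by positivity)
    filter_upwards [eventually_ge_atTop M] with n h2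
    rw [Real.dist_eq]
    exact (hM n β₀ h2 (by rw [sub_self, abs_zero]; exact hc.le)).trans_lt (by linarith)
  tfae_have 1 → 3 := by
    rintro ⟨L, hL⟩
    have hinf : Tendsto (fun k : ℕ => (k : ℝ) + 1) atTop atTop :=
      tendsto_atTop_add_const_right _ _ tendsto_natCast_atTop_atTop
    refine subset_closure ⟨h0, fun k => k + 1, tendsto_add_atTop_nat 1, ?_, L,
      hL.comp (tendsto_add_atTop_nat 1)⟩
    have h2 : Tendsto (fun k : ℕ => 1 + 1 / ((k : ℝ) + 1)) atTop (𝓝 (1 + 0)) :=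
      tendsto_const_nhds.add (tendsto_const_nhds.div_atTop hinf)
    rw [add_zero] at h2
    refine h2.congr fun k => ?_
    push_cast
    field_simp
  tfae_have 3 → 4 := by
    rintro h ⟨a, b, c, hab, hc, ha, hb⟩
    obtain ⟨β, ⟨hβ0, n, hn, hq, L, hL⟩, hβ⟩ := Metric.mem_closure_iff.1 h c hc
    have g3 : |β - β₀| ≤ c := by
      rw [dist_comm, Real.dist_eq] at hβ
      exact hβ.le
    have h2 : L ≤ a := le_of_tendsto_of_frequently hL (meets hc g3 ha hn hq)
    have h3 : b ≤ L := ge_of_tendsto_of_frequently hL (meets hc g3 hb hn hq)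
    linarith
  tfae_have 4 → 1 := fun h => by
    by_contra hno
    exact h (robust hd h0 hno)
  tfae_finish

end Pool.Agent.Results.MP_86995c_pr.RobustFailure
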